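import Mathlib

namespace Pool.Agent.H.MP_182b9e_gt

open MeasureTheory Set Pointwise

abbrev E (d : ℕ) := EuclideanSpace ℝ (Fin d)

variable {d : ℕ}

/-- support function -/
noncomputable def h (K : Set (E d)) (v : (E d)) : ℝ := sSup ((fun y : (E d) => @inner ℝ (E d) _ y v) '' K)

theorem hmax {K : Set (E d)} (c : IsCompact K) (n : K.Nonempty) (v : (E d)) :
    IsGreatest ((fun y : (E d) => @inner ℝ (E d) _ y v) '' K) (h K v) :=
  (c.image (by fun_prop)).isGreatest_sSup (n.image _)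

theorem hle {K : Set (E d)} (c : IsCompact K) {y} (hy : y ∈ K) (v : (E d)) : inner ℝ y v ≤ h K v :=
  (hmax c ⟨y, hy⟩ v).2 ⟨y, hy, rfl⟩

theorem gauss : Integrable fun v : (E d) => ‖v‖ * Real.exp (-‖v‖ ^ 2) := by
  have := (GaussianFourier.integrable_cexp_neg_mul_sq_norm_add (V := (E d)) (b := 1 / 2) (by norm_num) 0 0).norm
  refine this.mono' (by fun_prop) (ae_of_all _ fun v => ?_)
  have e : (-(1 / 2 : ℂ) * (‖v‖ : ℂ) ^ 2 + 0 * (inner ℝ (0 : (E d)) v : ℝ)) = ((-(1 / 2) * ‖v‖ ^ 2 : ℝ) : ℂ) := by push_cast; ring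
  rw [e, ← Complex.ofReal_exp, Complex.norm_real, Real.norm_of_nonneg (by positivity), Real.norm_of_nonneg (by positivity),
    show -(1 / 2) * ‖v‖ ^ 2 = ‖v‖ ^ 2 / 2 + -‖v‖ ^ 2 by ring, Real.exp_add]
  gcongr
  nlinarith [Real.add_one_le_exp (‖v‖ ^ 2 / 2), sq_nonneg (‖v‖ - 1)]

theorem hint {K : Set (E d)} (c : IsCompact K) (n : K.Nonempty) {f : ℝ → ℝ} (hf : Continuous f) (hb : ∀ t, |f t| ≤ |t|) :
    Integrable fun v : (E d) => f (h K v) * Real.exp (-‖v‖ ^ 2) := by
  obtain ⟨R, hR⟩ := c.isBounded.exists_norm_le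
  have l : ∀ v w, h K v ≤ h K w + R * ‖v - w‖ := fun v w => by
    obtain ⟨y, hy, e⟩ := (hmax c n v).1
    have := hle c hy w
    have a := real_inner_le_norm y (v - w)
    have := mul_le_mul_of_nonneg_right (hR y hy) (norm_nonneg (v - w))
    rw [inner_sub_right] at a
    simp only at e; linarith
  have z : h K 0 = 0 := by obtain ⟨y, -, e⟩ := (hmax c n 0).1; simpa using e.symm
  have ct : Continuous (h K) := (LipschitzWith.of_le_add_mul' R fun v w => by rw [dist_eq_norm]; exact l v w).continuous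
  refine (gauss.const_mul R).mono' (by fun_prop) (ae_of_all _ fun v => ?_)
  rw [norm_mul, Real.norm_of_nonneg (Real.exp_pos _).le, ← mul_assoc]
  gcongr
  have a := l v 0; have b := l 0 v
  simp only [z, sub_zero, zero_sub, norm_neg] at a b
  exact (hb _).trans (abs_le.2 ⟨by linarith, by linarith⟩)

/-- mean width, up to a positive factor depending only on the dimension -/
noncomputable def mw (K : Set (E d)) : ℝ := ∫ v : E d, h K v * Real.exp (-‖v‖ ^ 2)

/-- nonempty compact convex sets (`b = false`), convex bodies (`b = true`) -/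
def Cls (b : Bool) (K : Set (E d)) : Prop :=
  IsCompact K ∧ Convex ℝ K ∧ K.Nonempty ∧ (b = true → (interior K).Nonempty)

noncomputable def P (K : Set (E d)) : ℝ := ∫ v : (E d), max (h K v) 0 * Real.exp (-‖v‖ ^ 2)
noncomputable def N (K : Set (E d)) : ℝ := ∫ v : (E d), max (-h K v) 0 * Real.exp (-‖v‖ ^ 2)
noncomputable def lam (K : Set (E d)) : ℝ := 1 - N K / P K
def A (K : Set (E d)) : Set (E d) := (fun p : ℝ × (E d) => p.1 • p.2) '' Icc 0 (lam K) ×ˢ K
def D (K : Set (E d)) : Set (E d) := (fun p : (E d) × (E d) => (1 / 2 : ℝ) • (p.1 - p.2)) '' A K ×ˢ A K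

section
variable {K L : Set (E d)} (c : IsCompact K) (n : K.Nonempty)
include c n

theorem iP : Integrable fun v : (E d) => max (h K v) 0 * Real.exp (-‖v‖ ^ 2) :=
  hint c n (f := fun t => max t 0) (by fun_prop) fun t => by grind
theorem iN : Integrable fun v : (E d) => max (-h K v) 0 * Real.exp (-‖v‖ ^ 2) :=
  hint c n (f := fun t => max (-t) 0) (by fun_prop) fun t => by grind

omit c n in
theorem P_neg : ∫ v : (E d), max (h K (-v)) 0 * Real.exp (-‖v‖ ^ 2) = P K := by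
  simpa [P] using integral_neg_eq_self (fun v : (E d) => max (h K v) 0 * Real.exp (-‖v‖ ^ 2)) volume

theorem iP' : Integrable fun v : (E d) => max (h K (-v)) 0 * Real.exp (-‖v‖ ^ 2) := by
  simpa using (iP c n).comp_neg

omit c n in
theorem N0 : 0 ≤ N K := integral_nonneg fun v => by positivity

theorem NP : N K ≤ P K := by
  rw [← P_neg]
  refine integral_mono (iN c n) (iP' c n) fun v => ?_
  obtain ⟨y, hy⟩ := n
  have a := hle c hy v; have b := hle c hy (-v)
  rw [inner_neg_right] at b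
  simp only; gcongr; linarith

theorem lam0 : 0 ≤ lam K := sub_nonneg.2 (div_le_one_of_le₀ (NP c n) (N0.trans (NP c n)))

theorem lam_mono (c' : IsCompact L) (s : K ⊆ L) : lam K ≤ lam L := by
  have n' := n.mono s
  have m : ∀ v, h K v ≤ h L v := fun v => by obtain ⟨y, hy, e⟩ := (hmax c n v).1; exact e ▸ hle c' (s hy) v
  have a : P K ≤ P L := integral_mono (iP c n) (iP c' n') fun v => by simp only; gcongr; exact m v
  have b : N L ≤ N K := integral_mono (iN c' n') (iN c n) fun v => by simp only; gcongr; exact m v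
  refine sub_le_sub_left ?_ _
  rcases (N0.trans (NP c n)).eq_or_lt with e | e
  · have : N L = 0 := by linarith [NP c n, N0 (K := L)]
    simp [this, ← e]
  · exact div_le_div₀ N0 b e a

theorem hD (v : (E d)) : h (D K) v = lam K * ((max (h K v) 0 + max (h K (-v)) 0) / 2) := by
  have l := lam0 c n
  have k : ∀ v, IsGreatest ((fun y : (E d) => @inner ℝ (E d) _ y v) '' A K) (lam K * max (h K v) 0) := fun v => by
    obtain ⟨y, hy, e⟩ := (hmax c n v).1
    refine ⟨?_, ?_⟩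
    · rcases le_total (h K v) 0 with a | a
      · exact ⟨_, ⟨(0, y), ⟨⟨le_rfl, l⟩, hy⟩, rfl⟩, by simp [a]⟩
      · exact ⟨_, ⟨(lam K, y), ⟨⟨l, le_rfl⟩, hy⟩, rfl⟩, by simp only at e; simp [a, inner_smul_left, e]⟩
    · rintro _ ⟨_, ⟨⟨s, z⟩, ⟨⟨s0, s1⟩, hz⟩, rfl⟩, rfl⟩
      simp only [inner_smul_left, conj_trivial]
      exact (mul_le_mul_of_nonneg_left ((hle c hz v).trans (le_max_left _ 0)) s0).trans
        (mul_le_mul_of_nonneg_right s1 (le_max_right _ _))
  refine IsGreatest.csSup_eq ⟨?_, ?_⟩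
  · obtain ⟨y, hy, e⟩ := (k v).1
    obtain ⟨z, hz, e'⟩ := (k (-v)).1
    refine ⟨_, ⟨(y, z), ⟨hy, hz⟩, rfl⟩, ?_⟩
    simp only [inner_smul_left, inner_sub_left, inner_neg_right, conj_trivial] at e e' ⊢
    linarith
  · rintro _ ⟨_, ⟨⟨y, z⟩, ⟨hy, hz⟩, rfl⟩, rfl⟩
    have a := (k v).2 ⟨y, hy, rfl⟩
    have b := (k (-v)).2 ⟨z, hz, rfl⟩
    simp only [inner_smul_left, inner_sub_left, inner_neg_right, conj_trivial] at a b ⊢
    linarith

theorem WPN : mw K = P K - N K := by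
  rw [mw, P, N, ← integral_sub (iP c n) (iN c n)]
  congr 1; ext v; rw [← sub_mul]; congr 1; grind

theorem WD : mw (D K) = mw K := by
  have b : mw (D K) = lam K / 2 * (P K + P K) := by
    nth_rw 2 [← P_neg]
    rw [mw, P, ← integral_add (iP c n) (iP' c n), ← integral_const_mul]
    congr 1; ext v; rw [hD c n]; ring
  rw [WPN c n, b, lam]
  rcases eq_or_ne (P K) 0 with e | e
  · have : N K = 0 := by linarith [NP c n, N0 (K := K)]
    simp [e, this]
  · field_simp; ring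
end

theorem lam_pos {K : Set (E d)} (c : IsCompact K) (i : K.Nontrivial) : 0 < lam K := by
  obtain ⟨p, hp, q, hq, pq⟩ := i
  have n : K.Nonempty := ⟨p, hp⟩
  have i0 : Integrable fun v : E d => |inner ℝ (p - q) v| * Real.exp (-‖v‖ ^ 2) :=
    (gauss.const_mul ‖p - q‖).mono' (by fun_prop) (ae_of_all _ fun v => by
      rw [Real.norm_of_nonneg (by positivity), ← mul_assoc]; gcongr; exact abs_real_inner_le_norm _ _)
  have g := integral_pos_of_integrable_nonneg_nonzero (x := p - q) (by fun_prop) i0 (fun v => by positivity)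
    (mul_ne_zero (by simpa [sub_eq_zero] using pq) (Real.exp_pos _).ne')
  have i1 : Integrable fun v : E d => h K v * Real.exp (-‖v‖ ^ 2) := hint c n (f := id) continuous_id fun _ => le_rfl
  have i2 : Integrable fun v : E d => h K (-v) * Real.exp (-‖v‖ ^ 2) := by simpa using i1.comp_neg
  have e : ∫ v : E d, h K (-v) * Real.exp (-‖v‖ ^ 2) = mw K := by
    simpa [mw] using integral_neg_eq_self (fun v : E d => h K v * Real.exp (-‖v‖ ^ 2)) volume
  have k : ∫ v : E d, |inner ℝ (p - q) v| * Real.exp (-‖v‖ ^ 2) ≤ mw K + mw K := by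
    nth_rw 2 [← e]
    rw [mw, ← integral_add i1 i2]
    refine integral_mono i0 (i1.add i2) fun v => ?_
    have a := hle c hp (-v); have b := hle c hp v; have a' := hle c hq (-v); have b' := hle c hq v
    rw [inner_neg_right] at a a'
    simp only
    rw [← add_mul, inner_sub_left]
    gcongr
    exact abs_le.2 ⟨by linarith, by linarith⟩
  rw [WPN c n] at k
  exact sub_pos.2 ((div_lt_one (by linarith [N0 (K := K)])).2 (by linarith))

theorem D_cls {b} {K : Set (E d)} (hd : 0 < d) (hK : Cls b K) : Cls b (D K) ∧ -D K = D K := by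
  obtain ⟨c, v, n, i⟩ := hK
  have cA : IsCompact (A K) := (isCompact_Icc.prod c).image (by fun_prop)
  have vA : Convex ℝ (A K) := by
    rintro _ ⟨⟨s, y⟩, ⟨hs, hy⟩, rfl⟩ _ ⟨⟨t, z⟩, ⟨ht, hz⟩, rfl⟩ a b ha hb hab
    obtain ⟨w, hw, e⟩ := v.exists_mem_add_smul_eq hy hz (mul_nonneg ha hs.1) (mul_nonneg hb ht.1)
    exact ⟨(_, w), ⟨convex_Icc _ _ hs ht ha hb hab, hw⟩, by simpa [smul_smul] using e⟩
  have l := lam0 c n
  obtain ⟨y, hy⟩ := n
  have nA : (0 : E d) ∈ A K := ⟨(0, y), ⟨⟨le_rfl, l⟩, hy⟩, by simp⟩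
  have s : ∀ x ∈ D K, -x ∈ D K := by
    rintro _ ⟨⟨p, q⟩, ⟨hp, hq⟩, rfl⟩
    exact ⟨(q, p), ⟨hq, hp⟩, by simp only; module⟩
  refine ⟨⟨(cA.prod cA).image (by fun_prop), (vA.prod vA).linear_image
    ((1 / 2 : ℝ) • (LinearMap.fst ℝ (E d) (E d) - LinearMap.snd ℝ (E d) (E d))), ⟨_, (0, 0), ⟨nA, nA⟩, rfl⟩, fun hb => ?_⟩,
    Subset.antisymm (fun x hx => by simpa using s _ hx) fun x hx => s x hx⟩
  obtain ⟨z, hz⟩ := i hb
  have : Nontrivial (E d) := Module.nontrivial_of_finrank_pos (R := ℝ) (by simpa using hd)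
  have l' := lam_pos c (infinite_of_mem_nhds z (mem_interior_iff_mem_nhds.1 hz)).nontrivial
  refine ⟨(lam K / 2) • z, interior_maximal (t := (lam K / 2) • interior K) ?_ (isOpen_interior.smul₀ (half_pos l').ne')
    ⟨z, hz, rfl⟩⟩
  rintro _ ⟨w, hw, rfl⟩
  exact ⟨(_, 0), ⟨⟨(lam K, w), ⟨⟨l, le_rfl⟩, interior_subset hw⟩, rfl⟩, nA⟩, by simp only; module⟩

theorem D_mono {b} {K L : Set (E d)} (hK : Cls b K) (hL : Cls b L) (s : K ⊆ L) : D K ⊆ D L := by
  have : A K ⊆ A L := image_mono (prod_mono (Icc_subset_Icc_right (lam_mono hK.1 hK.2.2.1 hL.1 s)) s)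
  exact image_mono (prod_mono this this)

theorem D_fix {b} {K : Set (E d)} (hK : Cls b K) (s : -K = K) : D K = K := by
  obtain ⟨c, v, ⟨y, hy⟩, -⟩ := hK
  have s : ∀ x ∈ K, -x ∈ K := fun x hx => by rw [← s]; simpa using hx
  have z : (0 : E d) ∈ K := by simpa using v hy (s y hy) (by norm_num : (0 : ℝ) ≤ 1 / 2) (by norm_num) (add_halves 1)
  have l : lam K = 1 := by
    have : N K = 0 := by
      rw [N, ← integral_zero (E d) ℝ]; congr 1; ext w
      have := hle c z w
      simp at this; simp [this]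
    simp [lam, this]
  have a : A K = K := by
    rw [A, l]
    refine Subset.antisymm ?_ fun x hx => ⟨(1, x), ⟨by simp, hx⟩, by simp⟩
    rintro _ ⟨⟨t, x⟩, ⟨ht, hx⟩, rfl⟩
    exact v.smul_mem_of_zero_mem z hx ht
  rw [D, a]
  refine Subset.antisymm ?_ fun x hx => ⟨(x, -x), ⟨hx, s x hx⟩, by simp only; module⟩
  rintro _ ⟨⟨p, q⟩, ⟨hp, hq⟩, rfl⟩
  convert v hp (s q hq) (by norm_num : (0 : ℝ) ≤ 1 / 2) (by norm_num) (add_halves 1) using 1
  simp only; module

end Pool.Agent.H.MP_182b9e_gt
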